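import Mathlib

set_option autoImplicit false

namespace Pool.Agent.KS6_47.HBt

open Finset

lemma sum_sub_sq {ι : Type*} [Fintype ι] (u v : ι → ℝ) :
    ∑ x, ∑ y, (u x - v y) ^ 2 =
      (Fintype.card ι : ℝ) * ∑ x, u x ^ 2 - 2 * (∑ x, u x) * (∑ y, v y) +
        (Fintype.card ι : ℝ) * ∑ y, v y ^ 2 := by
  have h : ∀ x y, (u x - v y) ^ 2 = u x ^ 2 - 2 * (u x * v y) + v y ^ 2 := fun x y => by ring
  simp only [h, sum_add_distrib, sum_sub_distrib, sum_const, card_univ, nsmul_eq_mul, ← mul_sum,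
    ← sum_mul]
  ring

/-- A variance bound of Efron-Stein type on a product space. -/
lemma efron {Ω : Type} [Fintype Ω] : ∀ (N : ℕ) (g : (Fin N → Ω) → ℝ),
    (∀ x i a, |g (Function.update x i a) - g x| ≤ 1) →
    ∑ x, ∑ y, (g x - g y) ^ 2 ≤ N * ((Fintype.card Ω : ℝ) ^ N) ^ 2 := by
  intro N
  induction N with
  | zero =>
    intro g _
    have : ∀ x y : Fin 0 → Ω, g x - g y = 0 := by
      intro x y
      rw [Subsingleton.elim x y, sub_self]
    simp [this]
  | succ N ih =>
    intro g hg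
    have hsum : ∀ F : (Fin (N + 1) → Ω) → ℝ,
        ∑ x, F x = ∑ a : Ω, ∑ x : Fin N → Ω, F (Fin.cons a x) := by
      intro F
      rw [← (Fin.consEquiv fun _ => Ω).sum_comp, Fintype.sum_prod_type]
      rfl
    have hIH : ∀ a : Ω, ∑ x : Fin N → Ω, ∑ y : Fin N → Ω,
        (g (Fin.cons a x) - g (Fin.cons a y)) ^ 2 ≤ N * ((Fintype.card Ω : ℝ) ^ N) ^ 2 := by
      intro a
      apply ih (fun x => g (Fin.cons a x))
      intro x i b
      have := hg (Fin.cons a x) i.succ b
      rwa [← Fin.cons_update] at this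
    have hM : (Fintype.card (Fin N → Ω) : ℝ) = (Fintype.card Ω : ℝ) ^ N := by
      rw [Fintype.card_fun, Fintype.card_fin]; push_cast; rfl
    set M : ℝ := (Fintype.card Ω : ℝ) ^ N with hMdef
    have hM0 : 0 ≤ M := by positivity
    have hpair : ∀ a b : Ω, ∑ x : Fin N → Ω, ∑ y : Fin N → Ω,
        (g (Fin.cons a x) - g (Fin.cons b y)) ^ 2 ≤ (N + 1) * M ^ 2 := by
      intro a b
      have e1 := sum_sub_sq (fun x : Fin N → Ω => g (Fin.cons a x)) (fun x => g (Fin.cons b x))
      have e2 := sum_sub_sq (fun x : Fin N → Ω => g (Fin.cons a x)) (fun x => g (Fin.cons a x))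
      have e3 := sum_sub_sq (fun x : Fin N → Ω => g (Fin.cons b x)) (fun x => g (Fin.cons b x))
      have i2 := hIH a
      have i3 := hIH b
      have hd : |∑ x : Fin N → Ω, g (Fin.cons a x) - ∑ x : Fin N → Ω, g (Fin.cons b x)| ≤ M := by
        rw [← sum_sub_distrib, ← hM]
        refine (abs_sum_le_sum_abs _ _).trans ?_
        refine (sum_le_card_nsmul _ _ 1 ?_).trans ?_
        · intro x _
          have := hg (Fin.cons b x) 0 a
          rwa [Fin.update_cons_zero] at this
        · simp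
      have hd2 : (∑ x : Fin N → Ω, g (Fin.cons a x) - ∑ x : Fin N → Ω, g (Fin.cons b x)) ^ 2 ≤ M ^ 2 := by
        rw [← sq_abs]
        exact pow_le_pow_left₀ (abs_nonneg _) hd 2
      rw [hM] at e1 e2 e3
      rw [e2] at i2
      rw [e3] at i3
      rw [e1]
      nlinarith
    rw [hsum]
    have hsum2 : ∀ a : Ω, ∀ x : Fin N → Ω, ∑ y, (g (Fin.cons a x) - g y) ^ 2 =
        ∑ b : Ω, ∑ y : Fin N → Ω, (g (Fin.cons a x) - g (Fin.cons b y)) ^ 2 := by
      intro a x
      rw [hsum]
    simp only [hsum2]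
    calc ∑ a : Ω, ∑ x : Fin N → Ω, ∑ b : Ω, ∑ y : Fin N → Ω, (g (Fin.cons a x) - g (Fin.cons b y)) ^ 2
        = ∑ a : Ω, ∑ b : Ω, ∑ x : Fin N → Ω, ∑ y : Fin N → Ω,
            (g (Fin.cons a x) - g (Fin.cons b y)) ^ 2 := by
          refine sum_congr rfl fun a _ => ?_
          rw [sum_comm]
      _ ≤ ∑ a : Ω, ∑ b : Ω, (N + 1) * M ^ 2 := sum_le_sum fun a _ => sum_le_sum fun b _ => hpair a b
      _ = ((N + 1 : ℕ) : ℝ) * ((Fintype.card Ω : ℝ) ^ (N + 1)) ^ 2 := by
          simp only [sum_const, card_univ, nsmul_eq_mul]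
          push_cast
          rw [pow_succ, hMdef]
          ring

lemma hamming_update {Ω : Type} [DecidableEq Ω] {N : ℕ} (x : Fin N → Ω) (i : Fin N) (a : Ω) :
    hammingDist (Function.update x i a) x ≤ 1 := by
  unfold hammingDist
  have : (univ.filter fun j => Function.update x i a j ≠ x j) ⊆ {i} := by
    intro j hj
    rw [mem_filter] at hj
    rw [mem_singleton]
    by_contra h
    exact hj.2 (Function.update_of_ne h _ _)
  exact (card_le_card this).trans (by simp)

/-- Two large sets of a product space have close points. -/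
lemma conc {Ω : Type} [Fintype Ω] [DecidableEq Ω] {N : ℕ} (E F : Finset (Fin N → Ω)) (k : ℕ)
    (h : ∀ e ∈ E, ∀ f ∈ F, k ≤ hammingDist e f) :
    (k : ℝ) ^ 2 * E.card * F.card ≤ N * ((Fintype.card Ω : ℝ) ^ N) ^ 2 := by
  rcases E.eq_empty_or_nonempty with hE | hE
  · subst hE
    simp
    positivity
  let d : (Fin N → Ω) → ℕ := fun x => E.inf' hE (fun e => hammingDist e x)
  have hd1 : ∀ x y, d x ≤ d y + hammingDist y x := by
    intro x y
    obtain ⟨e, he, hey⟩ := exists_mem_eq_inf' hE (fun e => hammingDist e y)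
    have h1 : d x ≤ hammingDist e x := inf'_le _ he
    have h2 : d y = hammingDist e y := hey
    rw [h2]
    exact h1.trans (hammingDist_triangle e y x)
  have hlip : ∀ x i a, |((d (Function.update x i a) : ℕ) : ℝ) - (d x : ℕ)| ≤ 1 := by
    intro x i a
    have h1 := hd1 (Function.update x i a) x
    have h2 := hd1 x (Function.update x i a)
    have h3 := hamming_update x i a
    have h4 : hammingDist x (Function.update x i a) ≤ 1 := by rw [hammingDist_comm]; exact h3
    have h5 : d (Function.update x i a) ≤ d x + 1 := by omega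
    have h6 : d x ≤ d (Function.update x i a) + 1 := by omega
    have h5' : (d (Function.update x i a) : ℝ) ≤ d x + 1 := by exact_mod_cast h5
    have h6' : (d x : ℝ) ≤ d (Function.update x i a) + 1 := by exact_mod_cast h6
    rw [abs_le]
    constructor <;> linarith
  have hef := efron N (fun x => ((d x : ℕ) : ℝ)) hlip
  refine le_trans ?_ hef
  have h0 : ∀ e ∈ E, d e = 0 := by
    intro e he
    have : d e ≤ hammingDist e e := inf'_le _ he
    rw [hammingDist_self] at this
    omega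
  have h1 : ∀ f ∈ F, k ≤ d f := by
    intro f hf
    exact (le_inf'_iff hE _).2 fun e he => h e he f hf
  calc (k : ℝ) ^ 2 * E.card * F.card = ∑ x ∈ E, ∑ y ∈ F, (k : ℝ) ^ 2 := by
        simp only [sum_const, nsmul_eq_mul]; ring
    _ ≤ ∑ x ∈ E, ∑ y ∈ F, (((d x : ℕ) : ℝ) - ((d y : ℕ) : ℝ)) ^ 2 := by
        refine sum_le_sum fun x hx => sum_le_sum fun y hy => ?_
        rw [h0 x hx]
        have : (k : ℝ) ≤ d y := by exact_mod_cast h1 y hy
        have hk : (0 : ℝ) ≤ k := by positivity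
        simp only [Nat.cast_zero, zero_sub, neg_sq]
        exact pow_le_pow_left₀ hk this 2
    _ ≤ ∑ x ∈ E, ∑ y, (((d x : ℕ) : ℝ) - ((d y : ℕ) : ℝ)) ^ 2 :=
        sum_le_sum fun x _ => sum_le_sum_of_subset_of_nonneg (subset_univ _) fun _ _ _ => sq_nonneg _
    _ ≤ ∑ x, ∑ y, (((d x : ℕ) : ℝ) - ((d y : ℕ) : ℝ)) ^ 2 :=
        sum_le_sum_of_subset_of_nonneg (subset_univ _) fun _ _ _ => sum_nonneg fun _ _ => sq_nonneg _

end Pool.Agent.KS6_47.HBt
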