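import Pool.Agent.KS6_47.HBt.Conc

set_option autoImplicit false

namespace Pool.Agent.KS6_47.HBt

open Finset

/-- Counting pairs: in a dense subset `A` of a finite group some point `y` has many
`y + s ε' - s ε` in `A`. -/
lemma exists_many {G T : Type} [AddCommGroup G] [Fintype G] [Fintype T] [DecidableEq G]
    (A : Finset G) (hA : A.Nonempty) (s : T → G) :
    ∃ y ∈ A, (Fintype.card T : ℝ) ^ 2 * A.card / Fintype.card G ≤
      ((univ : Finset (T × T)).filter fun p => y + s p.2 - s p.1 ∈ A).card := by
  classical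
  let I : G → ℝ := fun x => if x ∈ A then 1 else 0
  have hI : ∀ x, 0 ≤ I x := fun x => by simp only [I]; split_ifs <;> norm_num
  have hsumI : ∑ x, I x = A.card := by simp [I]
  -- counting
  have h1 : ∑ w, ∑ t, I (w + s t) = Fintype.card T * A.card := by
    rw [sum_comm]
    have : ∀ t, ∑ w, I (w + s t) = A.card := by
      intro t
      rw [← hsumI]
      exact Fintype.sum_equiv (Equiv.addRight (s t)) _ _ (fun _ => rfl)
    simp [this]
  have h2 : (∑ w, ∑ t, I (w + s t)) ^ 2 ≤ Fintype.card G * ∑ w, (∑ t, I (w + s t)) ^ 2 := by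
    have := sq_sum_le_card_mul_sum_sq (s := (univ : Finset G)) (f := fun w => ∑ t, I (w + s t))
    simpa using this
  have h3 : ∑ w, (∑ t, I (w + s t)) ^ 2 = ∑ y, I y * ∑ p : T × T, I (y + s p.2 - s p.1) := by
    have e1 : ∀ w, (∑ t, I (w + s t)) ^ 2 = ∑ p : T × T, I (w + s p.1) * I (w + s p.2) := by
      intro w
      rw [pow_two, sum_mul_sum, Fintype.sum_prod_type]
    simp only [e1]
    rw [sum_comm]
    simp only [mul_sum]
    rw [sum_comm (s := (univ : Finset G))]
    refine sum_congr rfl fun p _ => ?_
    refine Fintype.sum_equiv (Equiv.addRight (s p.1)) _ _ (fun w => ?_)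
    simp only [Equiv.coe_addRight]
    congr 2
    abel
  have h4 : ∀ y, ∑ p : T × T, I (y + s p.2 - s p.1) =
      ((univ : Finset (T × T)).filter fun p => y + s p.2 - s p.1 ∈ A).card := by
    intro y
    simp [I]
  by_contra hcon
  push Not at hcon
  have hG : (0 : ℝ) < Fintype.card G := by
    have : 0 < Fintype.card G := Fintype.card_pos_iff.2 ⟨hA.choose⟩
    exact_mod_cast this
  have hA0 : (0 : ℝ) < A.card := by exact_mod_cast hA.card_pos
  have h5 : ∑ y, I y * ∑ p : T × T, I (y + s p.2 - s p.1) <
      A.card * ((Fintype.card T : ℝ) ^ 2 * A.card / Fintype.card G) := by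
    have e : ∑ y, I y * ∑ p : T × T, I (y + s p.2 - s p.1) =
        ∑ y ∈ A, ∑ p : T × T, I (y + s p.2 - s p.1) := by
      simp only [I, ite_mul, one_mul, zero_mul, sum_ite_mem, univ_inter]
    rw [e]
    calc _ < ∑ y ∈ A, ((Fintype.card T : ℝ) ^ 2 * A.card / Fintype.card G) := by
          apply sum_lt_sum_of_nonempty hA
          intro y hy
          rw [h4]
          exact hcon y hy
      _ = _ := by simp
  rw [← h3] at h5
  rw [h1] at h2
  have h6 : (Fintype.card G : ℝ) * ∑ w, (∑ t, I (w + s t)) ^ 2 <
      Fintype.card G * (A.card * ((Fintype.card T : ℝ) ^ 2 * A.card / Fintype.card G)) :=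
    mul_lt_mul_of_pos_left h5 hG
  have h7 : (Fintype.card G : ℝ) * (A.card * ((Fintype.card T : ℝ) ^ 2 * A.card / Fintype.card G)) =
      ((Fintype.card T : ℝ) * A.card) ^ 2 := by
    field_simp
  linarith

/-- the number of functions with a diagonal value at a given place -/
lemma card_diag (N k : ℕ) (j : Fin N) :
    k * ((univ : Finset (Fin N → Fin k × Fin k)).filter fun ω => (ω j).1 = (ω j).2).card =
      (k * k) ^ N := by
  classical
  have e : ((univ : Finset (Fin N → Fin k × Fin k)).filter fun ω => (ω j).1 = (ω j).2) =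
      Fintype.piFinset fun i => if i = j then
        ((univ : Finset (Fin k × Fin k)).filter fun p => p.1 = p.2) else univ := by
    ext ω
    simp only [mem_filter, mem_univ, true_and, Fintype.mem_piFinset]
    constructor
    · intro h i
      split_ifs with hi
      · subst hi; simp [h]
      · simp
    · intro h
      have := h j
      simpa using this
  have hdiag : ((univ : Finset (Fin k × Fin k)).filter fun p => p.1 = p.2).card = k := by
    have : ((univ : Finset (Fin k × Fin k)).filter fun p => p.1 = p.2) =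
        (univ : Finset (Fin k)).image fun a => (a, a) := by
      ext ⟨a, b⟩
      simp [eq_comm]
    rw [this, card_image_of_injective _ (fun a b h => congrArg Prod.fst h)]
    simp
  rw [e, Fintype.card_piFinset, ← mul_prod_erase univ _ (mem_univ j), ← mul_assoc]
  rw [if_pos rfl, hdiag]
  have : ∏ x ∈ univ.erase j, (if x = j then
        ((univ : Finset (Fin k × Fin k)).filter fun p => p.1 = p.2) else univ).card =
      ∏ x ∈ univ.erase j, (k * k) := by
    refine prod_congr rfl fun i hi => ?_
    rw [if_neg (ne_of_mem_erase hi)]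
    simp
  rw [this, prod_const, card_erase_of_mem (mem_univ j), card_univ, Fintype.card_fin, ← pow_succ']
  congr 1
  have := j.2
  omega

/-- Few sequences have many diagonal values. -/
lemma few_diag (N k : ℕ) (c : ℝ) (hk : 0 < k) :
    c * ((univ : Finset (Fin N → Fin k × Fin k)).filter fun ω =>
      c ≤ ((univ.filter fun j => (ω j).1 = (ω j).2).card : ℝ)).card ≤
      N * ((k * k : ℕ) : ℝ) ^ N / k := by
  classical
  have hk' : (0 : ℝ) < k := by exact_mod_cast hk
  have h1 : ∑ ω : Fin N → Fin k × Fin k, ((univ.filter fun j => (ω j).1 = (ω j).2).card : ℝ) =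
      N * ((k * k : ℕ) : ℝ) ^ N / k := by
    have e : ∀ ω : Fin N → Fin k × Fin k, ((univ.filter fun j => (ω j).1 = (ω j).2).card : ℝ) =
        ∑ j : Fin N, if (ω j).1 = (ω j).2 then (1 : ℝ) else 0 := by
      intro ω; simp
    simp only [e]
    rw [sum_comm]
    have e2 : ∀ j : Fin N, ∑ ω : Fin N → Fin k × Fin k, (if (ω j).1 = (ω j).2 then (1 : ℝ) else 0) =
        ((k * k : ℕ) : ℝ) ^ N / k := by
      intro j
      rw [eq_div_iff hk'.ne']
      have := card_diag N k j
      have h2 : ((k * ((univ : Finset (Fin N → Fin k × Fin k)).filter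
        fun ω => (ω j).1 = (ω j).2).card : ℕ) : ℝ) = (((k * k) ^ N : ℕ) : ℝ) := by rw [this]
      push_cast at h2 ⊢
      rw [← h2]
      simp [mul_comm]
    simp only [e2, sum_const, card_univ, Fintype.card_fin, nsmul_eq_mul]
    ring
  rw [← h1]
  calc _ = ∑ ω ∈ (univ : Finset (Fin N → Fin k × Fin k)).filter (fun ω =>
      c ≤ ((univ.filter fun j => (ω j).1 = (ω j).2).card : ℝ)), c := by
        rw [sum_const, nsmul_eq_mul, mul_comm]
    _ ≤ ∑ ω ∈ (univ : Finset (Fin N → Fin k × Fin k)).filter (fun ω =>
      c ≤ ((univ.filter fun j => (ω j).1 = (ω j).2).card : ℝ)),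
        ((univ.filter fun j => (ω j).1 = (ω j).2).card : ℝ) :=
        sum_le_sum fun ω hω => (mem_filter.1 hω).2
    _ ≤ _ := sum_le_sum_of_subset_of_nonneg (subset_univ _) fun _ _ _ => by positivity

end Pool.Agent.KS6_47.HBt
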