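import Pool.Agent.KS6_47.HBt.Count

set_option autoImplicit false

namespace Pool.Agent.KS6_47.HBt

open Finset

section points

variable {M : ℕ} [NeZero M]

/-- squared chord length -/
noncomputable def phi (d : ZMod M) : ℝ := ‖(ZMod.stdAddChar d : ℂ) - 1‖ ^ 2

lemma phi_nonneg (d : ZMod M) : 0 ≤ phi d := by unfold phi; positivity

lemma norm_chi (d : ZMod M) : ‖(ZMod.stdAddChar d : ℂ)‖ = 1 := by
  rw [ZMod.stdAddChar_apply]; exact Circle.norm_coe _

lemma chord (a b : ZMod M) :
    ‖(ZMod.stdAddChar a : ℂ) - ZMod.stdAddChar b‖ ^ 2 = phi (a - b) := by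
  unfold phi
  have e : (ZMod.stdAddChar a : ℂ) - ZMod.stdAddChar b =
      (ZMod.stdAddChar (a - b) - 1) * ZMod.stdAddChar b := by
    rw [sub_mul, ← AddChar.map_add_eq_mul, sub_add_cancel, one_mul]
  rw [e, norm_mul, norm_chi, mul_one]

lemma phi_zero : phi (0 : ZMod M) = 0 := by simp [phi]

lemma phi_neg (d : ZMod M) : phi (-d) = phi d := by
  have h := chord (0 : ZMod M) d
  rw [zero_sub, AddChar.map_zero_eq_one, norm_sub_rev] at h
  rw [← h, phi]

lemma phi_two : phi (2 : ZMod M) = phi (1 : ZMod M) * ‖(ZMod.stdAddChar (1 : ZMod M) : ℂ) + 1‖ ^ 2 := by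
  unfold phi
  rw [← mul_pow, ← norm_mul]
  have e : (ZMod.stdAddChar (2 : ZMod M) : ℂ) = ZMod.stdAddChar (1 : ZMod M) * ZMod.stdAddChar (1 : ZMod M) := by
    rw [← AddChar.map_add_eq_mul, one_add_one_eq_two]
  rw [e]
  congr 2
  ring

lemma phi_one_pos (hM : 2 ≤ M) : 0 < phi (1 : ZMod M) := by
  unfold phi
  have : (ZMod.stdAddChar (1 : ZMod M) : ℂ) - 1 ≠ 0 := by
    intro h
    have h1 : (ZMod.stdAddChar (1 : ZMod M) : ℂ) = ZMod.stdAddChar (0 : ZMod M) := by
      rw [AddChar.map_zero_eq_one]; exact sub_eq_zero.1 h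
    have h2 := ZMod.injective_stdAddChar h1
    have : Fact (1 < M) := ⟨by omega⟩
    exact one_ne_zero h2
  positivity

variable {ι : Type} [Fintype ι] {H : Type*} [NormedAddCommGroup H] [InnerProductSpace ℝ H]

/-- coordinates -/
noncomputable def coef (ρ : ℝ) (x : ι → ZMod M) (p : ι × Fin 2) : ℝ :=
  ρ * (if p.2 = 0 then (ZMod.stdAddChar (x p.1) : ℂ).re else (ZMod.stdAddChar (x p.1) : ℂ).im)

/-- the point of the Hilbert space -/
noncomputable def pnt (ρ : ℝ) (e : ι × Fin 2 → H) (x : ι → ZMod M) : H :=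
  ∑ p, coef ρ x p • e p

lemma dist_pnt (ρ : ℝ) {e : ι × Fin 2 → H} (he : Orthonormal ℝ e) (x y : ι → ZMod M) :
    dist (pnt ρ e x) (pnt ρ e y) ^ 2 = ρ ^ 2 * ∑ i, phi (x i - y i) := by
  have h1 : pnt ρ e x - pnt ρ e y = ∑ p, (coef ρ x p - coef ρ y p) • e p := by
    unfold pnt
    rw [← sum_sub_distrib]
    exact sum_congr rfl fun p _ => (sub_smul _ _ _).symm
  rw [dist_eq_norm, h1, ← real_inner_self_eq_norm_sq, he.inner_sum]
  rw [Fintype.sum_prod_type, mul_sum]
  refine sum_congr rfl fun i _ => ?_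
  rw [← chord, ← Complex.normSq_eq_norm_sq, Complex.normSq_apply]
  simp only [Fin.sum_univ_two, coef, conj_trivial, Complex.sub_re, Complex.sub_im]
  norm_num
  ring

end points

section steps

variable {N k M : ℕ} [NeZero M]

/-- the step of a sequence -/
def stp (ε : Fin N → Fin k) (p : Fin N × Fin k) : ZMod M := if ε p.1 = p.2 then 1 else 0

lemma sum_upper (a b : Fin k) :
    ∑ i : Fin k, phi ((if a = i then (1 : ZMod M) else 0) - (if b = i then 1 else 0)) ≤ 2 * phi (1 : ZMod M) := by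
  have h : ∀ i : Fin k, phi ((if a = i then (1 : ZMod M) else 0) - (if b = i then 1 else 0)) ≤
      (if a = i then phi (1 : ZMod M) else 0) + (if b = i then phi (1 : ZMod M) else 0) := by
    intro i
    have h0 := phi_nonneg (1 : ZMod M)
    split_ifs
    · rw [sub_self, phi_zero]; linarith
    · rw [sub_zero]; linarith
    · rw [zero_sub, phi_neg]; linarith
    · rw [sub_zero, phi_zero]; linarith
  refine (sum_le_sum fun i _ => h i).trans ?_
  rw [sum_add_distrib]
  simp
  linarith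

lemma sum_lower {a b : Fin k} (hab : a ≠ b) :
    2 * phi (2 : ZMod M) ≤ ∑ i : Fin k, phi (((if b = i then (1 : ZMod M) else 0) - (if a = i then 1 else 0)) -
      ((if a = i then (1 : ZMod M) else 0) - (if b = i then 1 else 0))) := by
  calc 2 * phi (2 : ZMod M) = ∑ i ∈ ({a, b} : Finset (Fin k)),
        phi (((if b = i then (1 : ZMod M) else 0) - (if a = i then 1 else 0)) -
      ((if a = i then (1 : ZMod M) else 0) - (if b = i then 1 else 0))) := by
        rw [sum_pair hab]
        simp only [if_true, if_neg hab, if_neg hab.symm]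
        have e1 : ((0 : ZMod M) - 1 - (1 - 0)) = -2 := by ring
        have e2 : ((1 : ZMod M) - 0 - (0 - 1)) = 2 := by ring
        rw [e1, e2, phi_neg]
        ring
    _ ≤ _ := sum_le_sum_of_subset_of_nonneg (subset_univ _) fun _ _ _ => phi_nonneg _

/-- In a dense set of the group there is a bad triangle. -/
lemma find {H : Type*} [NormedAddCommGroup H] [InnerProductSpace ℝ H]
    (hM : 2 ≤ M) (hN : 0 < N) (hk : 0 < k) {κ l δ ρ : ℝ} (hκ : 0 < κ) (hκ1 : κ < 1 / 2) (hl : 0 < l)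
    (hδ : 0 ≤ 1 + δ)
    (hkk : 2 ≤ κ * l * k) (hNN : 4 < κ ^ 2 * l ^ 2 * N)
    (hMM : (1 + δ) ^ 2 ≤ (1 - 2 * κ) * ‖(ZMod.stdAddChar (1 : ZMod M) : ℂ) + 1‖ ^ 2)
    (hρ0 : 0 < ρ)
    (hρ : ρ ^ 2 * (2 * N * phi (1 : ZMod M)) = 1)
    {e : (Fin N × Fin k) × Fin 2 → H} (he : Orthonormal ℝ e)
    (A : Finset (Fin N × Fin k → ZMod M))
    (hA : l * Fintype.card (Fin N × Fin k → ZMod M) ≤ A.card) :
    ∃ y ∈ A, ∃ x ∈ A, ∃ z ∈ A, dist (pnt ρ e y) (pnt ρ e x) ≤ 1 ∧ dist (pnt ρ e y) (pnt ρ e z) ≤ 1 ∧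
      1 + δ ≤ dist (pnt ρ e x) (pnt ρ e z) := by
  classical
  have hG : (0 : ℝ) < Fintype.card (Fin N × Fin k → ZMod M) := by
    have : 0 < Fintype.card (Fin N × Fin k → ZMod M) := Fintype.card_pos
    exact_mod_cast this
  have hAne : A.Nonempty := by
    rw [← card_pos]
    have : (0 : ℝ) < A.card := lt_of_lt_of_le (by positivity) hA
    exact_mod_cast this
  obtain ⟨y, hy, hmany⟩ := exists_many A hAne (fun ε : Fin N → Fin k => (stp ε : Fin N × Fin k → ZMod M))
  -- the set of pairs as sequences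
  let W : Finset (Fin N → Fin k × Fin k) := univ.filter fun ω =>
    y + stp (fun j => (ω j).2) - stp (fun j => (ω j).1) ∈ A
  have hWcard : ((univ : Finset ((Fin N → Fin k) × (Fin N → Fin k))).filter fun p =>
      y + stp p.2 - stp p.1 ∈ A).card = W.card := by
    refine (card_bij (fun ω _ => ((fun j => (ω j).1, fun j => (ω j).2) :
      (Fin N → Fin k) × (Fin N → Fin k))) ?_ ?_ ?_).symm
    · intro ω hω
      have := (mem_filter.1 hω).2
      exact mem_filter.2 ⟨mem_univ _, this⟩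
    · intro ω _ ω' _ h
      funext j
      have h1 := congrFun (congrArg Prod.fst h) j
      have h2 := congrFun (congrArg Prod.snd h) j
      exact Prod.ext h1 h2
    · rintro ⟨p1, p2⟩ hp
      refine ⟨fun j => (p1 j, p2 j), ?_, rfl⟩
      exact mem_filter.2 ⟨mem_univ _, (mem_filter.1 hp).2⟩
  set Q : ℝ := ((k * k : ℕ) : ℝ) ^ N with hQ
  have hk' : (0 : ℝ) < k := by exact_mod_cast hk
  have hN' : (0 : ℝ) < N := by exact_mod_cast hN
  have hQ0 : 0 < Q := by
    rw [hQ]; push_cast; positivity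
  have hW : l * Q ≤ W.card := by
    rw [← hWcard]
    refine le_trans ?_ hmany
    have : (Fintype.card (Fin N → Fin k) : ℝ) ^ 2 = Q := by
      rw [Fintype.card_fun, Fintype.card_fin, Fintype.card_fin, hQ]
      push_cast
      rw [← pow_mul, mul_comm N 2, pow_mul, pow_two]
    rw [this, le_div_iff₀ hG]
    nlinarith
  -- bad sequences
  let B : Finset (Fin N → Fin k × Fin k) := univ.filter fun ω =>
      κ * N ≤ ((univ.filter fun j => (ω j).1 = (ω j).2).card : ℝ)
  have hB : (B.card : ℝ) ≤ l / 2 * Q := by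
    have h1 := few_diag N k (κ * N) hk
    rw [le_div_iff₀ hk'] at h1
    have h2 : κ * N * (B.card : ℝ) * k ≤ N * Q := h1
    have h3 : (κ * k) * (B.card : ℝ) ≤ Q := by
      have : N * ((κ * k) * (B.card : ℝ)) ≤ N * Q := by linarith
      exact le_of_mul_le_mul_left this hN'
    have h4 : 2 * (B.card : ℝ) ≤ l * Q := by
      calc 2 * (B.card : ℝ) ≤ (κ * l * k) * B.card := mul_le_mul_of_nonneg_right hkk (by positivity)
        _ = l * ((κ * k) * B.card) := by ring
        _ ≤ l * Q := mul_le_mul_of_nonneg_left h3 hl.le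
    linarith
  let E := W \ B
  have hE : l / 2 * Q ≤ E.card := by
    have h1 : W.card ≤ E.card + B.card := by
      have := card_le_card_sdiff_add_card (s := W) (t := B)
      exact this
    have h2 : (W.card : ℝ) ≤ E.card + B.card := by exact_mod_cast h1
    linarith
  let sw : (Fin N → Fin k × Fin k) → (Fin N → Fin k × Fin k) := fun ω j => (ω j).swap
  have hsw : Function.Injective sw := by
    intro ω ω' h
    funext j
    exact Prod.swap_injective (congrFun h j)
  let F := E.image sw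
  have hF : F.card = E.card := card_image_of_injective _ hsw
  -- close sequences
  obtain ⟨f1, hf1, f2, hf2, hclose⟩ : ∃ f1 ∈ E, ∃ f2 ∈ F, (hammingDist f1 f2 : ℝ) < κ * N := by
    by_contra hcon
    push Not at hcon
    have h1 := conc E F ⌈κ * N⌉₊ (fun a ha b hb => Nat.ceil_le.2 (hcon a ha b hb))
    rw [hF, Fintype.card_prod, Fintype.card_fin, ← hQ] at h1
    have h2 : (κ * N) ^ 2 * (l / 2 * Q) * (l / 2 * Q) ≤ (⌈κ * N⌉₊ : ℝ) ^ 2 * E.card * E.card := by
      have := Nat.le_ceil (κ * (N : ℝ))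
      gcongr
    have h3 : (κ ^ 2 * l ^ 2 * N) * (N * Q ^ 2) ≤ 4 * (N * Q ^ 2) := by
      nlinarith
    have h4 := le_of_mul_le_mul_right h3 (by positivity)
    linarith
  obtain ⟨f3, hf3, rfl⟩ := mem_image.1 hf2
  have hf1W := (mem_filter.1 (mem_sdiff.1 hf1).1).2
  have hf3W := (mem_filter.1 (mem_sdiff.1 hf3).1).2
  have hf1B : ((univ.filter fun j => (f1 j).1 = (f1 j).2).card : ℝ) < κ * N := by
    by_contra h
    push Not at h
    exact (mem_sdiff.1 hf1).2 (mem_filter.2 ⟨mem_univ _, h⟩)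
  have hphi := phi_one_pos hM
  have hup : ∀ ω : Fin N → Fin k × Fin k,
      dist (pnt ρ e y) (pnt ρ e (y + stp (fun j => (ω j).2) - stp (fun j => (ω j).1))) ≤ 1 := by
    intro ω
    rw [← sq_le_one_iff₀ dist_nonneg, dist_pnt ρ he]
    have h1 : ∑ p : Fin N × Fin k, phi (y p - ((y + stp (fun j => (ω j).2) - stp (fun j => (ω j).1) : Fin N × Fin k → ZMod M)) p) ≤
        N * (2 * phi (1 : ZMod M)) := by
      rw [Fintype.sum_prod_type]
      refine (sum_le_card_nsmul _ _ (2 * phi (1 : ZMod M)) fun j _ => ?_).trans (by simp)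
      refine le_trans (le_of_eq ?_) (sum_upper (ω j).1 (ω j).2)
      refine sum_congr rfl fun i _ => ?_
      congr 1
      simp only [Pi.sub_apply, Pi.add_apply, stp]
      ring
    calc _ ≤ ρ ^ 2 * (N * (2 * phi (1 : ZMod M))) := mul_le_mul_of_nonneg_left h1 (sq_nonneg _)
      _ = 1 := by rw [← hρ]; ring
  refine ⟨y, hy, _, hf1W, _, hf3W, hup f1, hup f3, ?_⟩
  apply le_of_sq_le_sq _ dist_nonneg
  rw [dist_pnt ρ he, Fintype.sum_prod_type]
  -- good places
  let J : Finset (Fin N) := univ.filter fun j => f1 j = sw f3 j ∧ (f1 j).1 ≠ (f1 j).2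
  have hJ : (1 - 2 * κ) * N ≤ J.card := by
    have hcov : (univ : Finset (Fin N)) ⊆ J ∪ ((univ.filter fun j => f1 j ≠ sw f3 j) ∪
        (univ.filter fun j => (f1 j).1 = (f1 j).2)) := by
      intro j _
      simp only [J, mem_union, mem_filter, mem_univ, true_and]
      tauto
    have h1 := card_le_card hcov
    have h2 := card_union_le J ((univ.filter fun j => f1 j ≠ sw f3 j) ∪
        (univ.filter fun j => (f1 j).1 = (f1 j).2))
    have h3 := card_union_le (univ.filter fun j => f1 j ≠ sw f3 j)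
        (univ.filter fun j => (f1 j).1 = (f1 j).2)
    rw [card_univ, Fintype.card_fin] at h1
    have h4 : N ≤ J.card + ((univ.filter fun j => f1 j ≠ sw f3 j).card +
        (univ.filter fun j => (f1 j).1 = (f1 j).2).card) := by omega
    have h5 : (N : ℝ) ≤ J.card + (((univ.filter fun j => f1 j ≠ sw f3 j).card : ℝ) +
        ((univ.filter fun j => (f1 j).1 = (f1 j).2).card : ℝ)) := by exact_mod_cast h4
    have h6 : ((univ.filter fun j => f1 j ≠ sw f3 j).card : ℝ) < κ * N := hclose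
    linarith
  have hlow : J.card * (2 * phi (2 : ZMod M)) ≤ ∑ j : Fin N, ∑ i : Fin k,
      phi ((y + stp (fun j => (f1 j).2) - stp (fun j => (f1 j).1) : Fin N × Fin k → ZMod M) (j, i) -
        (y + stp (fun j => (f3 j).2) - stp (fun j => (f3 j).1) : Fin N × Fin k → ZMod M) (j, i)) := by
    calc J.card * (2 * phi (2 : ZMod M)) = ∑ j ∈ J, 2 * phi (2 : ZMod M) := by simp
      _ ≤ ∑ j ∈ J, ∑ i : Fin k,
          phi ((y + stp (fun j => (f1 j).2) - stp (fun j => (f1 j).1) : Fin N × Fin k → ZMod M) (j, i) -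
            (y + stp (fun j => (f3 j).2) - stp (fun j => (f3 j).1) : Fin N × Fin k → ZMod M) (j, i)) := by
          refine sum_le_sum fun j hj => ?_
          obtain ⟨hj1, hj2⟩ := (mem_filter.1 hj).2
          refine (sum_lower hj2).trans (le_of_eq ?_)
          refine sum_congr rfl fun i _ => ?_
          have e1 : (f3 j).1 = (f1 j).2 := by rw [hj1]; rfl
          have e2 : (f3 j).2 = (f1 j).1 := by rw [hj1]; rfl
          congr 1
          simp only [Pi.sub_apply, Pi.add_apply, stp, e1, e2]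
          ring
      _ ≤ _ := sum_le_sum_of_subset_of_nonneg (subset_univ _) fun _ _ _ =>
          sum_nonneg fun _ _ => phi_nonneg _
  have h2 : 0 ≤ phi (2 : ZMod M) := phi_nonneg _
  set τ := ‖(ZMod.stdAddChar (1 : ZMod M) : ℂ) + 1‖ ^ 2 with hτ
  calc (1 + δ) ^ 2 ≤ (1 - 2 * κ) * τ := hMM
    _ = ρ ^ 2 * (((1 - 2 * κ) * N) * (2 * phi (2 : ZMod M))) := by
        rw [phi_two, ← hτ]
        calc (1 - 2 * κ) * τ = (ρ ^ 2 * (2 * N * phi (1 : ZMod M))) * ((1 - 2 * κ) * τ) := by
              rw [hρ, one_mul]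
          _ = _ := by ring
    _ ≤ ρ ^ 2 * (J.card * (2 * phi (2 : ZMod M))) := by gcongr
    _ ≤ _ := mul_le_mul_of_nonneg_left hlow (sq_nonneg _)

end steps

end Pool.Agent.KS6_47.HBt
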